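import Pool.Agent.Run7.h292.BL.Defs

/-! Piece DIST of project BL (helper292, MP_2d701a_co). Author: helper510. -/

set_option autoImplicit false

namespace Pool.Agent.Run7.h510.BL

open Finset Classical
open Pool.Agent.Results.MP_2634a8_co.Fractional (DiCycle)
open Pool.Agent.Run7.h292.BL

theorem Within.mono {V : Type} {k l : ℕ} {T T' : V → V → Prop} (h : Within k T T') (hkl : k ≤ l) :
    Within l T T' := by
  induction h generalizing l with
  | refl k T => exact Within.refl l T
  | step k T T' T'' h1 _ ih =>
    obtain ⟨l', rfl⟩ : ∃ l', l = l' + 1 := ⟨l - 1, by omega⟩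
    exact Within.step l' T T' T'' h1 (ih (by omega))

theorem Within.trans {V : Type} {k l : ℕ} {T T' T'' : V → V → Prop} (h : Within k T T')
    (h' : Within l T' T'') : Within (k + l) T T'' := by
  induction h with
  | refl k T => exact Within.mono h' (by omega)
  | step k T T1 T2 h1 _ ih =>
    have := Within.step (k + l) T T1 T'' h1 (ih h')
    exact Within.mono this (by omega)

section

set_option linter.unusedSectionVars false

variable {V : Type} [Fintype V]

/-- the reversed tournament is a tournament -/
theorem tour_rev {A : V → V → Prop} {T : V → V → Prop} (hT : IsTour T) (C : DiCycle A) :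
    IsTour (revCycle T C) := by
  obtain ⟨h1, h2, h3⟩ := hT
  refine ⟨?_, ?_, ?_⟩
  · intro v
    unfold revCycle
    split_ifs <;> exact h1 v
  · intro u v
    unfold revCycle
    have e : (C.Uses u v ∨ C.Uses v u) ↔ (C.Uses v u ∨ C.Uses u v) := or_comm
    by_cases hc : C.Uses u v ∨ C.Uses v u
    · rw [if_pos hc, if_pos (e.1 hc)]
      exact h2 v u
    · rw [if_neg hc, if_neg (fun h => hc (e.2 h))]
      exact h2 u v
  · intro u v huv
    unfold revCycle
    have e : (C.Uses u v ∨ C.Uses v u) ↔ (C.Uses v u ∨ C.Uses u v) := or_comm
    by_cases hc : C.Uses u v ∨ C.Uses v u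
    · rw [if_pos hc, if_pos (e.1 hc)]
      exact (h3 u v huv).symm
    · rw [if_neg hc, if_neg (fun h => hc (e.2 h))]
      exact h3 u v huv

theorem uses_adj {A : V → V → Prop} (C : DiCycle A) {u v : V} (h : C.Uses u v) : A u v := by
  obtain ⟨i, h1, h2⟩ := h
  rw [← h1, ← h2]
  exact C.adj i

/-- out-degrees do not change -/
theorem deg_rev {A : V → V → Prop} {T : V → V → Prop} (hT : IsTour T)
    (hA : ∀ u v, A u v → T u v) (C : DiCycle A) (v : V) :
    #{u | revCycle T C v u} = #{u | T v u} := by
  obtain ⟨h1, h2, h3⟩ := hT
  by_cases hv : ∃ i, C.vert i = v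
  · obtain ⟨i, hi⟩ := hv
    set a := C.vert (i + 1) with ha
    set b := C.vert (i - 1) with hb
    have hva : T v a := by
      rw [← hi, ha]
      exact hA _ _ (C.adj i)
    have hbv : T b v := by
      have := hA _ _ (C.adj (i - 1))
      rw [sub_add_cancel, hi] at this
      exact this
    have hab : a ≠ b := by
      intro h
      rw [h] at hva
      exact h2 _ _ hva hbv
    have hua : ∀ u, C.Uses v u ↔ u = a := by
      intro u
      constructor
      · rintro ⟨j, hj1, hj2⟩
        have : j = i := C.inj (hj1.trans hi.symm)
        rw [← hj2, this]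
      · intro h
        exact ⟨i, hi, h.symm⟩
    have hub : ∀ u, C.Uses u v ↔ u = b := by
      intro u
      constructor
      · rintro ⟨j, hj1, hj2⟩
        have : j + 1 = i := C.inj (hj2.trans hi.symm)
        rw [← hj1, hb, ← this, add_sub_cancel_right]
      · intro h
        exact ⟨i - 1, h.symm, by rw [sub_add_cancel]; exact hi⟩
    have e : (univ.filter fun u => revCycle T C v u) =
        insert b ((univ.filter fun u => T v u).erase a) := by
      ext u
      simp only [mem_filter, mem_univ, true_and, mem_insert, mem_erase, revCycle, hua, hub]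
      by_cases hu1 : u = a
      · subst hu1
        rw [if_pos (Or.inl rfl)]
        constructor
        · intro h
          exact absurd h (h2 _ _ hva)
        · rintro (h | h)
          · exact absurd h hab
          · exact absurd rfl h.1
      · by_cases hu2 : u = b
        · subst hu2
          rw [if_pos (Or.inr rfl)]
          exact ⟨fun _ => Or.inl rfl, fun _ => hbv⟩
        · rw [if_neg (by rintro (h | h) <;> contradiction)]
          constructor
          · intro h
            exact Or.inr ⟨hu1, h⟩
          · rintro (h | h)
            · exact absurd h hu2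
            · exact h.2
    rw [e, card_insert_of_notMem, card_erase_of_mem]
    · have : 0 < #{u | T v u} := card_pos.2 ⟨a, by simp [hva]⟩
      omega
    · simp [hva]
    · simp only [mem_erase, mem_filter, mem_univ, true_and, not_and]
      intro _ h
      exact h2 _ _ h hbv
  · have : ∀ u, revCycle T C v u ↔ T v u := by
      intro u
      unfold revCycle
      rw [if_neg]
      rintro (⟨i, hi1, hi2⟩ | ⟨i, hi1, hi2⟩)
      · exact hv ⟨i, hi1⟩
      · exact hv ⟨i + 1, hi2⟩
    simp only [this]

/-- the arcs used by a cycle -/
theorem card_uses {A : V → V → Prop} (C : DiCycle A) :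
    #{a : V × V | C.Uses a.1 a.2} = C.len + 2 := by
  have e : (univ.filter fun a : V × V => C.Uses a.1 a.2) =
      (univ : Finset (Fin (C.len + 2))).image (fun i => (C.vert i, C.vert (i + 1))) := by
    ext ⟨u, v⟩
    simp only [mem_filter, mem_univ, true_and, mem_image, Prod.mk.injEq]
    exact Iff.rfl
  rw [e, card_image_of_injective]
  · simp
  · intro i j hij
    simp only [Prod.mk.injEq] at hij
    exact C.inj hij.1

/-- `D` after the reversal -/
theorem diff_rev' {A T T' : V → V → Prop} (hT : IsTour T) (hT' : IsTour T')
    (hA : ∀ u v, A u v → T u v ∧ T' v u)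
    (C : DiCycle A) (u v : V) :
    (revCycle T C u v ∧ T' v u) ↔ ((T u v ∧ T' v u) ∧ ¬ C.Uses u v) := by
  unfold revCycle
  by_cases h1 : C.Uses u v
  · have := hA _ _ (uses_adj C h1)
    rw [if_pos (Or.inl h1)]
    constructor
    · rintro ⟨h2, _⟩
      exact absurd this.1 (hT.2.1 _ _ h2)
    · rintro ⟨_, h2⟩
      exact absurd h1 h2
  · by_cases h2 : C.Uses v u
    · have := hA _ _ (uses_adj C h2)
      rw [if_pos (Or.inr h2)]
      constructor
      · rintro ⟨_, h3⟩
        exact absurd this.2 (hT'.2.1 _ _ h3)
      · rintro ⟨⟨h3, _⟩, _⟩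
        exact absurd this.1 (hT.2.1 _ _ h3)
    · rw [if_neg (by rintro (h | h) <;> contradiction)]
      tauto

theorem diff_rev {T T' : V → V → Prop} (hT : IsTour T) (hT' : IsTour T')
    (C : DiCycle (diffArcs T T')) (u v : V) :
    diffArcs (revCycle T C) T' u v ↔ diffArcs T T' u v ∧ ¬ C.Uses u v :=
  diff_rev' hT hT' (fun _ _ h => h) C u v

theorem card_diff_rev {T T' : V → V → Prop} (hT : IsTour T) (hT' : IsTour T')
    (C : DiCycle (diffArcs T T')) :
    #{a : V × V | diffArcs (revCycle T C) T' a.1 a.2} + (C.len + 2) =
      #{a : V × V | diffArcs T T' a.1 a.2} := by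
  rw [← card_uses C]
  have e : (univ.filter fun a : V × V => diffArcs (revCycle T C) T' a.1 a.2) =
      (univ.filter fun a : V × V => diffArcs T T' a.1 a.2) \
        (univ.filter fun a : V × V => C.Uses a.1 a.2) := by
    ext ⟨u, v⟩
    simp only [mem_filter, mem_univ, true_and, mem_sdiff]
    exact diff_rev hT hT' C u v
  rw [e]
  apply card_sdiff_add_card_eq_card
  intro a ha
  simp only [mem_filter, mem_univ, true_and] at ha ⊢
  exact uses_adj C ha

/-- in `D` the in-degree is the out-degree -/
theorem out_of_in {T T' : V → V → Prop} (hT : IsTour T) (hT' : IsTour T')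
    (hd : ∀ v, #{u | T v u} = #{u | T' v u}) {u v : V} (h : diffArcs T T' u v) :
    ∃ w, diffArcs T T' v w := by
  by_contra hc
  push Not at hc
  -- then every out-neighbour of `v` in `T` is one in `T'`; `u` is one in `T'` and not in `T`
  have h1 : (univ.filter fun w => T v w) ⊂ (univ.filter fun w => T' v w) := by
    rw [ssubset_iff_of_subset]
    · refine ⟨u, ?_, ?_⟩
      · simp only [mem_filter, mem_univ, true_and]
        exact h.2
      · simp only [mem_filter, mem_univ, true_and]
        exact hT.2.1 _ _ h.1
    · intro w hw
      simp only [mem_filter, mem_univ, true_and] at hw ⊢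
      have hne : v ≠ w := by
        rintro rfl
        exact hT.1 _ hw
      rcases hT'.2.2 v w hne with h2 | h2
      · exact h2
      · exact absurd ⟨hw, h2⟩ (hc w)
  have h2 := card_lt_card h1
  rw [hd v] at h2
  exact lt_irrefl _ h2

/-- a directed cycle -/
theorem exists_cycle {D : V → V → Prop} (hirr : ∀ v, ¬ D v v)
    (hout : ∀ u v, D u v → ∃ w, D v w) (hne : ∃ u v, D u v) : Nonempty (DiCycle D) := by
  obtain ⟨u0, v0, h0⟩ := hne
  set f : V → V := fun v => if h : ∃ w, D v w then h.choose else v with hf
  have hfD : ∀ v, (∃ w, D v w) → D v (f v) := by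
    intro v h
    rw [hf]
    simp only [h, dif_pos]
    exact h.choose_spec
  have hit : ∀ n, ∃ w, D (f^[n] v0) w := by
    intro n
    induction n with
    | zero => exact hout u0 v0 h0
    | succ n ih =>
      rw [Function.iterate_succ_apply']
      exact hout _ _ (hfD _ ih)
  obtain ⟨i, j, hij, he⟩ := Finite.exists_ne_map_eq_of_infinite (fun n : ℕ => f^[n] v0)
  wlog hlt : i < j generalizing i j with H
  · exact H j i hij.symm he.symm (lt_of_le_of_ne (not_lt.1 hlt) hij.symm)
  set x : V := f^[i] v0 with hx
  have hxn : ∀ n, ∃ w, D (f^[n] x) w := by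
    intro n
    rw [hx, ← Function.iterate_add_apply]
    exact hit _
  have hper : Function.IsPeriodicPt f (j - i) x := by
    show f^[j - i] x = x
    rw [hx, ← Function.iterate_add_apply, Nat.sub_add_cancel hlt.le]
    exact he.symm
  set m := Function.minimalPeriod f x with hm
  have hm0 : 0 < m := hper.minimalPeriod_pos (by omega)
  have hm1 : m ≠ 1 := by
    intro h
    have h1 : f^[m] x = x := Function.iterate_minimalPeriod
    rw [h] at h1
    have h2 := hfD _ (hxn 0)
    simp only [Function.iterate_zero, id] at h2
    simp only [Function.iterate_one] at h1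
    rw [h1] at h2
    exact hirr _ h2
  have hm2 : m - 2 + 2 = m := by omega
  refine ⟨⟨m - 2, fun i => f^[i.val] x, ?_, ?_⟩⟩
  · intro a b hab
    have ha : a.val < m := by have := a.isLt; omega
    have hb : b.val < m := by have := b.isLt; omega
    have := Function.iterate_injOn_Iio_minimalPeriod (f := f) (x := x) ha hb hab
    exact Fin.ext this
  · intro a
    have hstep : f^[(a + 1).val] x = f^[a.val + 1] x := by
      rcases Nat.lt_or_ge (a.val + 1) (m - 2 + 2) with h | h
      · have : (a + 1).val = a.val + 1 := by
          rw [Fin.val_add, Fin.val_one]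
          exact Nat.mod_eq_of_lt h
        rw [this]
      · have ha := a.isLt
        have h1 : a.val + 1 = m - 2 + 2 := by omega
        have : (a + 1).val = 0 := by
          rw [Fin.val_add, Fin.val_one, h1]
          exact Nat.mod_self _
        rw [this, h1, hm2, hm]
        exact Function.iterate_minimalPeriod.symm
    show D (f^[a.val] x) (f^[(a + 1).val] x)
    rw [hstep, Function.iterate_succ_apply']
    exact hfD _ (hxn _)

/-- change of the digraph of a cycle -/
def castC {A B : V → V → Prop} (C : DiCycle A) (h : ∀ u v, C.Uses u v → B u v) : DiCycle B :=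
  ⟨C.len, C.vert, C.inj, fun i => h _ _ ⟨i, rfl, rfl⟩⟩

end

theorem dist_aux (hcyc : StCyc) {V : Type} [Fintype V] : ∀ (n : ℕ) (T T' : V → V → Prop),
    IsTour T → IsTour T' → (∀ v, #{u | T v u} = #{u | T' v u}) →
    #{a : V × V | diffArcs T T' a.1 a.2} = n →
    ∀ (N : ℕ) (C : Fin N → DiCycle (diffArcs T T')), ArcDisjoint C →
      2 * N ≤ n ∧ Within (n - 2 * N) T T' := by
  intro n
  induction n using Nat.strong_induction_on with
  | _ n ih =>
    intro T T' hT hT' hd hn N C hC
    -- one step: reverse a cycle `E`, keeping the others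
    have step : ∀ (E : DiCycle (diffArcs T T')) (M : ℕ) (F : Fin M → DiCycle (diffArcs T T')),
        ArcDisjoint F → (∀ i u v, (F i).Uses u v → ¬ E.Uses u v) →
        2 * M + (E.len + 2) ≤ n ∧ Within (E.len + (n - (E.len + 2) - 2 * M)) T T' := by
      intro E M F hF hEF
      have hcard := card_diff_rev hT hT' E
      rw [hn] at hcard
      have hT1 := tour_rev hT E
      have hd1 : ∀ v, #{u | revCycle T E v u} = #{u | T' v u} := by
        intro v
        rw [deg_rev hT (fun _ _ h => h.1) E v]
        exact hd v
      have hlt : n - (E.len + 2) < n := by omega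
      have hn1 : #{a : V × V | diffArcs (revCycle T E) T' a.1 a.2} = n - (E.len + 2) := by
        omega
      let G : Fin M → DiCycle (diffArcs (revCycle T E) T') := fun i =>
        castC (F i) (fun u v h => (diff_rev hT hT' E u v).2 ⟨uses_adj _ h, hEF i u v h⟩)
      have hG : ArcDisjoint G := fun i j hij u v h1 h2 => hF i j hij u v h1 h2
      obtain ⟨h1, h2⟩ := ih (n - (E.len + 2)) hlt (revCycle T E) T' hT1 hT' hd1 hn1 M G hG
      refine ⟨by omega, ?_⟩
      have h3 : Within E.len T (revCycle T E) :=
        hcyc V T hT (castC E (fun u v h => (uses_adj E h).1))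
      exact Within.trans h3 h2
    rcases Nat.eq_zero_or_pos N with hN | hN
    · subst hN
      refine ⟨by omega, ?_⟩
      by_cases hne : ∃ u v, diffArcs T T' u v
      · obtain ⟨E⟩ := exists_cycle (D := diffArcs T T') (fun v h => hT.1 v h.1)
          (fun u v h => out_of_in hT hT' hd h) hne
        obtain ⟨h1, h2⟩ := step E 0 C hC (fun i => i.elim0)
        exact Within.mono h2 (by omega)
      · push Not at hne
        have : T = T' := by
          funext u v
          apply propext
          constructor
          · intro h
            have huv : u ≠ v := by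
              rintro rfl
              exact hT.1 _ h
            rcases hT'.2.2 u v huv with h1 | h1
            · exact h1
            · exact absurd ⟨h, h1⟩ (hne u v)
          · intro h
            have huv : u ≠ v := by
              rintro rfl
              exact hT'.1 _ h
            rcases hT.2.2 u v huv with h1 | h1
            · exact h1
            · exact absurd ⟨h1, h⟩ (hne v u)
        rw [this]
        exact Within.refl _ _
    · obtain ⟨M, rfl⟩ : ∃ M, N = M + 1 := ⟨N - 1, by omega⟩
      obtain ⟨h1, h2⟩ := step (C 0) M (fun i => C i.succ)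
        (fun i j hij => hC _ _ (fun h => hij (Fin.succ_injective _ h)))
        (fun i u v h => hC i.succ 0 (Fin.succ_ne_zero i) u v h)
      exact ⟨by omega, Within.mono h2 (by omega)⟩

theorem t_DIST (hcyc : StCyc) : StDist := by
  intro V _ T T' hT hT' hd N C hC
  exact (dist_aux hcyc _ T T' hT hT' hd rfl N C hC).2

end Pool.Agent.Run7.h510.BL

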